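import Pool.Agent.H40.Avo

open Pool.Agent.H40.Avo in
theorem Pool.Agent.Results.MP_d66889_lc.AvoConvex.result :
    ∀ (d : ℕ) (A : Type) [Finite A] (X : Set ((Fin d → ℤ) → A)),
      IsSubshift X → IsAvo X → SFTConvex X :=
  fun _ _ _ => main
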